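import Mathlib
import Pool.Agent.MP_598c06_an.Defs

section

namespace Pool.Agent.MP_598c06_an

open Filter

/-- binary digit sum -/
def ds (m : ℕ) : ℕ := (Nat.digits 2 m).sum

lemma ds_zero : ds 0 = 0 := by simp [ds]

lemma ds_two_mul_add (x b : ℕ) (hb : b < 2) : ds (b + 2 * x) = b + ds x := by
  unfold ds
  rcases Nat.eq_zero_or_pos (b + 2 * x) with h | h
  · have h1 : b = 0 := by omega
    have h2 : x = 0 := by omega
    simp [h1, h2]
  · rw [Nat.digits_add 2 (by norm_num) b x hb (by omega)]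
    simp

lemma ds_add_pow (M : ℕ) : ∀ a u : ℕ, a < 2 ^ M → ds (a + 2 ^ M * u) = ds a + ds u := by
  induction M with
  | zero =>
    intro a u ha
    have : a = 0 := by simpa using ha
    simp [this, ds_zero]
  | succ M ih =>
    intro a u ha
    have h1 : a = a % 2 + 2 * (a / 2) := by omega
    have h2 : a / 2 < 2 ^ M := by rw [pow_succ] at ha; omega
    have h3 : a + 2 ^ (M + 1) * u = a % 2 + 2 * (a / 2 + 2 ^ M * u) := by
      rw [pow_succ]; nlinarith
    rw [h3, ds_two_mul_add _ _ (Nat.mod_lt _ (by norm_num)), ih _ _ h2]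
    conv_rhs => rw [h1, ds_two_mul_add _ _ (Nat.mod_lt _ (by norm_num))]
    omega

lemma ds_compl (M : ℕ) : ∀ a f : ℕ, a + f + 1 = 2 ^ M → ds a + ds f = M := by
  induction M with
  | zero =>
    intro a f h
    have h1 : a = 0 := by simp at h; omega
    have h2 : f = 0 := by simp at h; omega
    simp [h1, h2, ds_zero]
  | succ M ih =>
    intro a f h
    rw [pow_succ] at h
    have h1 : a = a % 2 + 2 * (a / 2) := by omega
    have h2 : f = f % 2 + 2 * (f / 2) := by omega
    have h3 := ih (a / 2) (f / 2) (by omega)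
    rw [h1, h2, ds_two_mul_add _ _ (Nat.mod_lt _ (by norm_num)),
      ds_two_mul_add _ _ (Nat.mod_lt _ (by norm_num))]
    omega

lemma ds_le (a : ℕ) : ds a ≤ a := Nat.digit_sum_le 2 a

lemma ds_one : ds 1 = 1 := by simp [ds]

lemma ds_eq_zero {a : ℕ} (h : ds a = 0) : a = 0 := by
  induction a using Nat.strong_induction_on with
  | _ a ih =>
    by_contra ha
    have h1 : a = a % 2 + 2 * (a / 2) := by omega
    rw [h1, ds_two_mul_add _ _ (Nat.mod_lt _ (by norm_num))] at h
    have := ih (a / 2) (by omega) (by omega)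
    omega

/-- the set of integers that are natural numbers with digit sum less than `k` -/
def DD (k : ℕ) : Set ℤ := {d | 0 ≤ d ∧ ds d.toNat < k}

lemma DD_zero : DD 0 = ∅ := by ext d; simp [DD]

lemma mem_DD_add {k M : ℕ} {τ u : ℕ} {d : ℤ} (hM : |d| + τ + k < 2 ^ M) (hM' : |d| + τ + k ≤ M) :
    ((τ + 2 ^ M * u : ℕ) : ℤ) + d ∈ DD k ↔ (τ : ℤ) + d ∈ DD (k - ds u) := by
  by_cases h : 0 ≤ (τ : ℤ) + d
  · obtain ⟨a, ha⟩ := Int.eq_ofNat_of_zero_le h
    have ha2 : a < 2 ^ M := by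
      have : (a : ℤ) < 2 ^ M := by
        have := le_abs_self d
        have : (0 : ℤ) ≤ k := by positivity
        omega
      exact_mod_cast this
    have h1 : ((τ + 2 ^ M * u : ℕ) : ℤ) + d = ((a + 2 ^ M * u : ℕ) : ℤ) := by
      push_cast; omega
    rw [h1, ha]
    simp only [DD, Set.mem_ofPred_eq, Int.toNat_natCast, Int.natCast_nonneg, true_and]
    rw [ds_add_pow M a u ha2]
    omega
  · have h' : ¬ ((τ : ℤ) + d ∈ DD (k - ds u)) := fun hh => h hh.1
    simp only [h', iff_false]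
    rintro ⟨h0, h1⟩
    obtain ⟨e, he⟩ : ∃ e : ℕ, (τ : ℤ) + d = -((e : ℤ) + 1) := ⟨(-((τ : ℤ) + d) - 1).toNat, by omega⟩
    have he2 : (e : ℤ) + 1 ≤ |d| := by
      have := neg_abs_le d
      omega
    rcases Nat.eq_zero_or_pos u with hu | hu
    · subst hu
      push_cast at h0
      omega
    · obtain ⟨v, rfl⟩ : ∃ v, u = v + 1 := ⟨u - 1, by omega⟩
      have he3 : e + 1 ≤ 2 ^ M := by
        have : (e : ℤ) + 1 ≤ 2 ^ M := by
          have : (0 : ℤ) ≤ k := by positivity
          have : (0 : ℤ) ≤ τ := by positivity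
          omega
        exact_mod_cast this
      obtain ⟨a, ha⟩ : ∃ a, a + e + 1 = 2 ^ M := ⟨2 ^ M - (e + 1), by omega⟩
      have h2 : ((τ + 2 ^ M * (v + 1) : ℕ) : ℤ) + d = ((a + 2 ^ M * v : ℕ) : ℤ) := by
        have : ((a + e + 1 : ℕ) : ℤ) = ((2 ^ M : ℕ) : ℤ) := by rw [ha]
        push_cast at this ⊢
        linarith
      rw [h2, Int.toNat_natCast, ds_add_pow M a v (by omega)] at h1
      have h3 := ds_compl M a e ha
      have h4 := ds_le e
      omega

/-- Along an ultrafilter, translates of `DD k` converge to a translate of some `DD j`, `j ≤ k`. -/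
lemma ultra_limit {ι : Type*} (U : Ultrafilter ι) (t : ι → ℤ) (k : ℕ) :
    ∃ j ≤ k, ∃ τ : ℤ, ∀ d : ℤ, ∀ᶠ i in (U : Filter ι), (t i + d ∈ DD k ↔ τ + d ∈ DD j) := by
  by_cases h0 : ∃ d0 : ℤ, ∀ᶠ i in (U : Filter ι), t i + d0 ∈ DD k
  swap
  · refine ⟨0, Nat.zero_le _, 0, fun d => ?_⟩
    have := (Ultrafilter.eventually_not (f := U)).2 (fun h => h0 ⟨d, h⟩)
    filter_upwards [this] with i hi
    simp [hi, DD_zero]
  obtain ⟨d0, hd0⟩ := h0
  set s : ι → ℕ := fun i => (t i + d0).toNat with hs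
  have hs1 : ∀ᶠ i in (U : Filter ι), (s i : ℤ) = t i + d0 ∧ ds (s i) < k := by
    filter_upwards [hd0] with i hi
    exact ⟨Int.toNat_of_nonneg hi.1, hi.2⟩
  have fin : ∀ (f : ι → ℕ) (N : ℕ), (∀ᶠ i in (U : Filter ι), f i < N) →
      ∃ c, ∀ᶠ i in (U : Filter ι), f i = c := by
    intro f N hf
    have h1 : ∀ᶠ i in (U : Filter ι), ∃ c ∈ Finset.range N, f i = c := by
      filter_upwards [hf] with i hi
      exact ⟨f i, Finset.mem_range.2 hi, rfl⟩
    have h2 := (Ultrafilter.eventually_exists_mem_iff (f := U) (is := (Finset.range N : Set ℕ))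
      (P := fun c i => f i = c) (Finset.finite_toSet _)).1 (by simpa using h1)
    obtain ⟨c, _, hc⟩ := h2
    exact ⟨c, hc⟩
  choose τ hτ using fun M : ℕ => fin (fun i => s i % 2 ^ M) (2 ^ M)
    (Eventually.of_forall fun i => Nat.mod_lt _ (by positivity))
  obtain ⟨σ, hσ⟩ := fin (fun i => ds (s i)) k (hs1.mono fun i hi => hi.2)
  have hlt : ∀ M, τ M < 2 ^ M := by
    intro M
    obtain ⟨i, hi⟩ := (hτ M).exists
    rw [← hi]; exact Nat.mod_lt _ (by positivity)
  have hdec : ∀ M, ∀ᶠ i in (U : Filter ι), s i = τ M + 2 ^ M * (s i / 2 ^ M) := by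
    intro M
    filter_upwards [hτ M] with i hi
    rw [← hi]; exact (Nat.mod_add_div _ _).symm
  have hle : ∀ M, ds (τ M) ≤ σ := by
    intro M
    obtain ⟨i, hi, hi'⟩ := ((hdec M).and hσ).exists
    rw [hi, ds_add_pow M _ _ (hlt M)] at hi'
    omega
  have hcompat : ∀ M M', M ≤ M' → τ M' = τ M + 2 ^ M * (τ M' / 2 ^ M) := by
    intro M M' hMM
    obtain ⟨i, hi, hi'⟩ := ((hτ M).and (hτ M')).exists
    have : τ M = τ M' % 2 ^ M := by
      rw [← hi, ← hi']
      exact (Nat.mod_mod_of_dvd _ (pow_dvd_pow 2 hMM)).symm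
    rw [this]; exact (Nat.mod_add_div _ _).symm
  obtain ⟨M0, hM0⟩ : ∃ M0, ∀ M, ds (τ M) ≤ ds (τ M0) := by
    obtain ⟨c, ⟨M0, rfl⟩, hc⟩ := Set.Finite.exists_maximalFor id (Set.range fun M => ds (τ M))
      (by
        exact (Set.finite_Iic σ).subset (by rintro _ ⟨M, rfl⟩; exact hle M))
      (Set.range_nonempty _)
    refine ⟨M0, fun M => ?_⟩
    by_contra hlt'
    have := hc (Set.mem_range_self M) (le_of_lt (not_le.1 hlt'))
    exact hlt' this
  have hconst : ∀ M, M0 ≤ M → τ M = τ M0 := by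
    intro M hM
    have h1 := hcompat M0 M hM
    have h2 := hM0 M
    rw [h1, ds_add_pow M0 _ _ (hlt M0)] at h2
    have h3 : τ M / 2 ^ M0 = 0 := ds_eq_zero (by omega)
    rw [h1, h3]; simp
  refine ⟨k - (σ - ds (τ M0)), Nat.sub_le _ _, (τ M0 : ℤ) - d0, fun d => ?_⟩
  obtain ⟨M, hM1, hM2⟩ : ∃ M : ℕ, M0 ≤ M ∧ |d - d0| + τ M0 + k ≤ M :=
    ⟨M0 + (|d - d0| + τ M0 + k).toNat, by omega, by
      have : 0 ≤ |d - d0| + τ M0 + k := by positivity
      push_cast; omega⟩
  have hM3 : |d - d0| + τ M0 + k < 2 ^ M := by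
    have : (M : ℤ) < 2 ^ M := by exact_mod_cast Nat.lt_two_pow_self
    omega
  filter_upwards [hs1, hdec M, hσ] with i h1 h2 h3
  have key := mem_DD_add (k := k) (M := M) (τ := τ M0) (u := s i / 2 ^ M) (d := d - d0) hM3 hM2
  rw [hconst M hM1] at h2
  have h4 : ds (s i / 2 ^ M) = σ - ds (τ M0) := by
    rw [h2, ds_add_pow M _ _ (hconst M hM1 ▸ hlt M)] at h3
    omega
  rw [← h2, h4] at key
  have e1 : t i + d = (s i : ℤ) + (d - d0) := by omega
  have e2 : (τ M0 : ℤ) - d0 + d = (τ M0 : ℤ) + (d - d0) := by ring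
  rw [e1, e2]; exact key

/-- `DD k` is a limit of translates of `DD (k+1)`. -/
lemma approx (k : ℕ) (d : ℤ) :
    ∀ᶠ M : ℕ in atTop, (((2 ^ M : ℕ) : ℤ) + d ∈ DD (k + 1) ↔ d ∈ DD k) := by
  filter_upwards [eventually_ge_atTop (|d| + (k + 1)).toNat] with M hM
  have h0 : 0 ≤ |d| + (k + 1) := by positivity
  have h1 : (M : ℤ) < 2 ^ M := by exact_mod_cast Nat.lt_two_pow_self
  have key := mem_DD_add (k := k + 1) (M := M) (τ := 0) (u := 1) (d := d)
    (by push_cast; omega) (by push_cast; omega)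
  simpa [ds_one] using key

/-- A translate of `DD k` that equals a translate of `DD j` forces `k = j`. -/
lemma DD_translate_le {j k : ℕ} {a b : ℤ} (h : ∀ d, a + d ∈ DD k ↔ b + d ∈ DD j) : k ≤ j := by
  rcases Nat.eq_zero_or_pos k with rfl | hk
  · exact Nat.zero_le _
  have h0 : ∀ m, 0 < m → (0 : ℤ) ∈ DD m := fun m hm => ⟨le_rfl, by simpa [ds_zero] using hm⟩
  have h1 : b + -a ∈ DD j := (h (-a)).1 (by simpa using h0 k hk)
  have hj : 0 < j := lt_of_le_of_lt (Nat.zero_le _) h1.2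
  have h2 : a + -b ∈ DD k := (h (-b)).2 (by simpa using h0 j hj)
  have hab : a = b := by
    have := h1.1
    have := h2.1
    omega
  subst hab
  obtain ⟨k, rfl⟩ : ∃ k', k = k' + 1 := ⟨k - 1, by omega⟩
  have h3 : ds (2 ^ k - 1) = k := by
    have := ds_compl k (2 ^ k - 1) 0 (by have := Nat.one_le_two_pow (n := k); omega)
    simpa [ds_zero] using this
  have h4 := (h (((2 ^ k - 1 : ℕ) : ℤ) - a)).1 (by
    rw [add_sub_cancel]
    exact ⟨Int.natCast_nonneg _, by rw [Int.toNat_natCast, h3]; omega⟩)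
  rw [add_sub_cancel] at h4
  have h5 := h4.2
  rw [Int.toNat_natCast, h3] at h5
  omega

end Pool.Agent.MP_598c06_an

end

section

noncomputable section

namespace Pool.Agent.MP_598c06_an

open Filter Topology FreeGroup

/-- the Cayley graph -/
abbrev cay (n : ℕ) : SimpleGraph (FreeGroup (Fin n)) :=
  SimpleGraph.mulCayley (Set.range (FreeGroup.of : Fin n → FreeGroup (Fin n)))

lemma last_step {n : ℕ} (i j : Fin n) (u : FreeGroup (Fin n)) (h : ¬ (u = 1 ∧ j = i)) :
    ((u * of j)⁻¹.toWord.getLast? = some (i, false)) ↔ (u⁻¹.toWord.getLast? = some (i, false)) := by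
  have h1 : (u * of j)⁻¹.toWord = reduce ((j, false) :: u⁻¹.toWord) := by
    rw [mul_inv_rev, toWord_mul, toWord_inv (of j), toWord_of]
    simp [invRev]
  rw [h1, reduce.cons, reduce_toWord]
  cases hL : u⁻¹.toWord with
  | nil =>
    have hu : u = 1 := by simpa using toWord_eq_nil_iff.1 hL
    have hj : j ≠ i := fun hh => h ⟨hu, hh⟩
    simp [hj]
  | cons hd tl =>
    dsimp only
    split_ifs with hc
    · cases tl with
      | nil =>
        obtain ⟨y, c⟩ := hd
        have : c = true := by simpa using hc.2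
        simp [this]
      | cons a tl => simp [List.getLast?_cons_cons]
    · simp [List.getLast?_cons_cons]

lemma cay_acyclic (n : ℕ) : (cay n).IsAcyclic := by
  rw [SimpleGraph.isAcyclic_iff_forall_adj_isBridge]
  have key : ∀ (g : FreeGroup (Fin n)) (i : Fin n), (cay n).IsBridge s(g, g * of i) := by
    intro g i
    rw [SimpleGraph.isBridge_iff]
    rintro ⟨w⟩
    let c : FreeGroup (Fin n) → Prop := fun v => (g⁻¹ * v)⁻¹.toWord.getLast? = some (i, false)
    have step : ∀ u j, s(u, u * of j) ≠ s(g, g * of i) → (c (u * of j) ↔ c u) := by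
      intro u j hne
      have := last_step i j (g⁻¹ * u) (by
        rintro ⟨h1, h2⟩
        apply hne
        rw [inv_mul_eq_one] at h1
        rw [h1, h2])
      simpa only [c, mul_assoc] using this
    have inv : ∀ {u v} (_ : ((cay n).deleteEdges {s(g, g * of i)}).Walk u v), (c u ↔ c v) := by
      intro u v p
      induction p with
      | nil => rfl
      | cons hadj _ ih =>
        rw [← ih]
        rw [SimpleGraph.deleteEdges_adj, SimpleGraph.mulCayley_adj'] at hadj
        obtain ⟨⟨_, _, ⟨j, rfl⟩, h | h⟩, hne⟩ := hadj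
        · subst h
          exact (step _ j (by simpa only [Set.mem_singleton_iff] using hne)).symm
        · subst h
          refine step _ j ?_
          rw [Sym2.eq_swap]
          simpa only [Set.mem_singleton_iff] using hne
    have h1 : ¬ c g := by simp [c]
    have h2 : c (g * of i) := by
      simp only [c, inv_mul_cancel_left]
      rw [toWord_inv, toWord_of]; simp [invRev]
    exact h1 ((inv w).2 h2)
  intro v w hadj
  rw [SimpleGraph.mulCayley_adj'] at hadj
  obtain ⟨_, _, ⟨j, rfl⟩, h | h⟩ := hadj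
  · subst h; exact key _ _
  · subst h; rw [Sym2.eq_swap]; exact key _ _

lemma tendsto_X_iff {n : ℕ} {ι : Type*} {l : Filter ι} {f : ι → X n} {T : X n} :
    Tendsto f l (𝓝 T) ↔ ∀ g, ∀ᶠ i in l, (g ∈ (f i).1 ↔ g ∈ T.1) := by
  rw [TopologicalSpace.tendsto_nhds_generateFrom_iff]
  constructor
  · intro h g
    have := h _ ⟨T, g.norm, rfl⟩ (fun _ _ => Iff.rfl)
    filter_upwards [this] with i hi
    exact hi g le_rfl
  · rintro h _ ⟨S, r, rfl⟩ hT
    have hfin : {g : FreeGroup (Fin n) | g.norm ≤ r}.Finite := by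
      have : {g : FreeGroup (Fin n) | g.norm ≤ r} ⊆ FreeGroup.mk '' {L | L.length ≤ r} :=
        fun g hg => ⟨g.toWord, hg, mk_toWord⟩
      exact ((List.finite_length_le _ r).image _).subset this
    have := (eventually_all_finite hfin).2 (fun g _ => h g)
    filter_upwards [this] with i hi g hg
    exact (hi g hg).trans (hT g hg)

lemma Reroot.mem_iff {n : ℕ} {g : FreeGroup (Fin n)} {T T' : X n} (h : Reroot g T T')
    (x : FreeGroup (Fin n)) : x ∈ T'.1 ↔ g * x ∈ T.1 := by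
  rw [h.2]
  constructor
  · rintro ⟨y, hy, rfl⟩
    simpa using hy
  · intro hx
    exact ⟨g * x, hx, by simp⟩

lemma reroot_of_iff {n : ℕ} {g : FreeGroup (Fin n)} {T T' : X n}
    (h : ∀ x, x ∈ T'.1 ↔ g * x ∈ T.1) : Reroot g T T' := by
  refine ⟨by simpa using (h 1).1 T'.2.2.1, ?_⟩
  ext x
  rw [h]
  constructor
  · intro hx
    exact ⟨g * x, hx, by simp⟩
  · rintro ⟨y, hy, rfl⟩
    simpa using hy

/-- the orbit relation -/
def Rel {n : ℕ} (T T' : X n) : Prop := ∃ g, Reroot g T T'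

lemma Rel.refl {n : ℕ} (T : X n) : Rel T T := ⟨1, reroot_of_iff (by simp)⟩

lemma Rel.symm {n : ℕ} {T T' : X n} : Rel T T' → Rel T' T := by
  rintro ⟨g, h⟩
  exact ⟨g⁻¹, reroot_of_iff fun x => by rw [h.mem_iff]; simp⟩

lemma Rel.trans {n : ℕ} {T T' T'' : X n} : Rel T T' → Rel T' T'' → Rel T T'' := by
  rintro ⟨g, h⟩ ⟨g', h'⟩
  exact ⟨g * g', reroot_of_iff fun x => by rw [h'.mem_iff, h.mem_iff, mul_assoc]⟩

/-- re-rooting at a vertex -/
def rr {n : ℕ} (T : X n) (g : FreeGroup (Fin n)) (hg : g ∈ T.1) : X n :=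
  ⟨{x | g * x ∈ T.1}, by
    refine ⟨?_, by simpa using hg, ?_⟩
    · exact T.2.1.preimage (f := fun x => g * x) (fun x _ => ⟨g⁻¹ * x, by simp⟩)
    · refine (SimpleGraph.Iso.isTree_iff (G' := (cay n).induce T.1) ?_).2 T.2.2.2
      refine ⟨(Equiv.mulLeft g).subtypeEquiv (fun _ => Iff.rfl), ?_⟩
      intro a b
      simp [SimpleGraph.mulCayley_adj_mul_iff_right]⟩

lemma reroot_rr {n : ℕ} (T : X n) (g : FreeGroup (Fin n)) (hg : g ∈ T.1) :
    Reroot g T (rr T g hg) := reroot_of_iff fun _ => Iff.rfl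

/-- orbit-invariant subsets of the transversal -/
def Inv {n : ℕ} (A : Set (X n)) : Prop := ∀ T T', T ∈ A → Rel T T' → T' ∈ A

lemma Inv.closure {n : ℕ} {A : Set (X n)} (hA : Inv A) : Inv (closure A) := by
  rintro T T' hT ⟨g, hg⟩
  rw [mem_closure_iff_ultrafilter] at hT ⊢
  obtain ⟨U, hU, hle⟩ := hT
  have h1 := tendsto_X_iff.1 (show Tendsto id (U : Filter (X n)) (𝓝 T) from hle)
  classical
  let f : X n → X n := fun S => if h : g ∈ S.1 then rr S g h else S
  refine ⟨U.map f, ?_, ?_⟩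
  · rw [Ultrafilter.mem_map]
    filter_upwards [hU] with S hS
    simp only [Set.mem_preimage, f]
    split_ifs with h
    · exact hA _ _ hS ⟨g, reroot_rr S g h⟩
    · exact hS
  · change Tendsto f (U : Filter (X n)) (𝓝 T')
    rw [tendsto_X_iff]
    intro x
    filter_upwards [h1 g, h1 (g * x)] with S h2 h3
    have h4 : g ∈ S.1 := h2.2 hg.1
    simp only [f, dif_pos h4]
    rw [hg.mem_iff]
    exact h3

end Pool.Agent.MP_598c06_an

end
end

section

noncomputable section

namespace Pool.Agent.MP_598c06_an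

open Filter Topology FreeGroup

/-- the union of the leaves through a subset of the transversal -/
def sat {n : ℕ} (A : Set (X n)) : Set (M n) := Quot.mk Glue '' {p : Pieces n | p.1.1 ∈ A}

/-- the orbit of a tree -/
def orb {n : ℕ} (T : X n) : Set (X n) := {T' | Rel T T'}

lemma leaf_eq {n : ℕ} (T : X n) : leaf T = sat (orb T) := rfl

lemma orb_inv {n : ℕ} (T : X n) : Inv (orb T) := fun _ _ h h' => Rel.trans h h'

lemma rel_of_mk_eq {n : ℕ} {p q : Pieces n} (h : (Quot.mk Glue p : M n) = Quot.mk Glue q) :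
    Rel p.1.1 q.1.1 := by
  have := Quot.eqvGen_exact h
  clear h
  induction this with
  | rel x y h => obtain ⟨i, _, h, _⟩ := h; exact ⟨_, h⟩
  | refl x => exact Rel.refl _
  | symm x y _ ih => exact ih.symm
  | trans x y z _ _ ih1 ih2 => exact ih1.trans ih2

lemma mk_mem_sat {n : ℕ} {A : Set (X n)} (hA : Inv A) (p : Pieces n) :
    (Quot.mk Glue p : M n) ∈ sat A ↔ p.1.1 ∈ A :=
  ⟨fun ⟨_, hq, h⟩ => hA _ _ hq (rel_of_mk_eq h), fun h => ⟨p, h, rfl⟩⟩

/-- the point at infinity of the piece of a tree -/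
def pt {n : ℕ} (T : X n) : Pieces n :=
  ⟨(T, OnePoint.infty), fun _ _ z h => absurd h (OnePoint.infty_ne_coe z)⟩

lemma sat_subset_iff {n : ℕ} {A B : Set (X n)} (hB : Inv B) : sat A ⊆ sat B ↔ A ⊆ B := by
  constructor
  · intro h T hT
    exact (mk_mem_sat hB (pt T)).1 (h ⟨pt T, hT, rfl⟩)
  · intro h
    exact Set.image_mono fun p hp => h hp

lemma continuous_mk {n : ℕ} : Continuous (Quot.mk Glue : Pieces n → M n) :=
  continuous_coinduced_rng

lemma continuous_fst_pieces {n : ℕ} : Continuous (fun p : Pieces n => p.1.1) :=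
  continuous_fst.comp continuous_induced_dom

lemma isClosed_sat {n : ℕ} {A : Set (X n)} (hA : Inv A) (hc : IsClosed A) : IsClosed (sat A) := by
  rw [isClosed_coinduced]
  have : (Quot.mk Glue : Pieces n → M n) ⁻¹' sat A = (fun p : Pieces n => p.1.1) ⁻¹' A := by
    ext p; exact mk_mem_sat hA p
  exact this ▸ hc.preimage continuous_fst_pieces

lemma closure_sat {n : ℕ} {A : Set (X n)} (hA : Inv A) : closure (sat A) = sat (closure A) := by
  apply Set.Subset.antisymm
  · exact closure_minimal ((sat_subset_iff hA.closure).2 subset_closure)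
      (isClosed_sat hA.closure isClosed_closure)
  · rintro _ ⟨p, hp, rfl⟩
    refine image_closure_subset_closure_image continuous_mk ⟨p, ?_, rfl⟩
    simp only [Set.mem_ofPred_eq] at hp
    rw [mem_closure_iff_ultrafilter] at hp ⊢
    obtain ⟨U, hU, hle⟩ := hp
    have h1 := tendsto_X_iff.1 (show Tendsto id (U : Filter (X n)) (𝓝 p.1.1) from hle)
    have h2 : ∀ᶠ S in (U : Filter (X n)), ∀ x : Fin n × Bool, FreeGroup.mk [x] ∈ S.1 →
        ∀ z : ℂ, p.1.2 = (z : OnePoint ℂ) → 1 ≤ dist z (centre x) := by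
      have := eventually_all.2 fun x : Fin n × Bool => h1 (FreeGroup.mk [x])
      filter_upwards [this] with S hS x hx
      exact p.2 x ((hS x).1 hx)
    classical
    let f : X n → Pieces n := fun S =>
      if h : (∀ x : Fin n × Bool, FreeGroup.mk [x] ∈ S.1 →
        ∀ z : ℂ, p.1.2 = (z : OnePoint ℂ) → 1 ≤ dist z (centre x)) then ⟨(S, p.1.2), h⟩ else p
    have h3 : ∀ᶠ S in (U : Filter (X n)), (f S).1 = (S, p.1.2) := by
      filter_upwards [h2] with S hS
      simp only [f, dif_pos hS]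
    refine ⟨U.map f, ?_, ?_⟩
    · rw [Ultrafilter.mem_map]
      filter_upwards [hU, h3] with S hS h4
      simp only [Set.mem_preimage, Set.mem_ofPred_eq, h4]
      exact hS
    · change Tendsto f (U : Filter (X n)) (𝓝 p)
      rw [nhds_induced, tendsto_comap_iff]
      refine Tendsto.congr' (f₁ := fun S => (S, p.1.2)) (h3.mono fun S hS => hS.symm) ?_
      exact Tendsto.prodMk_nhds hle tendsto_const_nhds

lemma leaf_eq_of_subset {n : ℕ} {T T' : X n} (h : leaf T ⊆ leaf T') : leaf T = leaf T' := by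
  refine Set.Subset.antisymm h ?_
  rw [leaf_eq, leaf_eq, sat_subset_iff (orb_inv _)] at *
  have h1 : Rel T' T := h (Rel.refl T)
  exact fun S hS => Rel.trans h1.symm hS

lemma nonDense_eq_empty_of_zero {n : ℕ} {A : Set (M n)} (h : AtLevel 0 A) : nonDense A = ∅ := by
  rw [AtLevel] at h
  ext L
  simp only [Set.mem_empty_iff_false, iff_false]
  rintro ⟨⟨T, rfl⟩, h1, h2⟩
  rcases h with ⟨⟨T', rfl⟩, _⟩ | h
  · exact h2 (leaf_eq_of_subset h1 ▸ subset_closure)
  · exact h2 (h _ ⟨T, rfl⟩ h1)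

lemma atLevel_unique {n : ℕ} : ∀ (k j : ℕ) (A : Set (M n)), AtLevel k A → AtLevel j A → k = j := by
  have key : ∀ N k j : ℕ, k + j ≤ N → ∀ A : Set (M n), AtLevel k A → AtLevel j A → k = j := by
    intro N
    induction N with
    | zero => intro k j h A _ _; omega
    | succ N ih =>
      intro k j h A hk hj
      cases k with
      | zero =>
        cases j with
        | zero => rfl
        | succ j =>
          rw [AtLevel] at hj
          obtain ⟨L, hL, _⟩ := hj.2.2
          rw [nonDense_eq_empty_of_zero hk] at hL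
          exact hL.elim
      | succ k =>
        cases j with
        | zero =>
          rw [AtLevel] at hk
          obtain ⟨L, hL, _⟩ := hk.2.2
          rw [nonDense_eq_empty_of_zero hj] at hL
          exact hL.elim
        | succ j =>
          rw [AtLevel] at hk hj
          obtain ⟨L, hL, h1⟩ := hk.2.2
          obtain ⟨L', hL', h1'⟩ := hj.2.2
          obtain ⟨a, ha⟩ := hj.2.1 L hL
          obtain ⟨b, hb⟩ := hk.2.1 L' hL'
          have h2 := a.2
          have h3 := b.2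
          have h4 := ih k a (by omega) _ h1 ha
          have h5 := ih j b (by omega) _ h1' hb
          omega
  exact fun k j => key _ k j le_rfl

/-- A chain of trees whose orbit closures are the initial unions of orbits has the levels. -/
lemma atLevel_of_chain {n : ℕ} (T : ℕ → X n)
    (hcl : ∀ k, closure (orb (T k)) = {S | ∃ j ≤ k, Rel (T j) S})
    (hne : ∀ j k, Rel (T j) (T k) → k ≤ j) (k : ℕ) : AtLevel k (closure (leaf (T k))) := by
  have hW : ∀ k, Inv {S | ∃ j ≤ k, Rel (T j) S} := fun k => hcl k ▸ (orb_inv _).closure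
  have hleaf : ∀ k, closure (leaf (T k)) = sat {S | ∃ j ≤ k, Rel (T j) S} := by
    intro k; rw [leaf_eq, closure_sat (orb_inv _), hcl]
  have hrel : ∀ {S S' : X n}, Rel S S' → leaf S = leaf S' := by
    intro S S' h
    apply leaf_eq_of_subset
    rw [leaf_eq, leaf_eq, sat_subset_iff (orb_inv _)]
    exact fun R hR => Rel.trans h.symm hR
  have hnd : ∀ k L, L ∈ nonDense (closure (leaf (T k))) ↔ ∃ j < k, L = leaf (T j) := by
    intro k L
    constructor
    · rintro ⟨⟨S, rfl⟩, h1, h2⟩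
      rw [hleaf, leaf_eq, sat_subset_iff (hW k)] at h1
      obtain ⟨j, hj, hS⟩ := h1 (Rel.refl S)
      refine ⟨j, lt_of_le_of_ne hj ?_, (hrel hS).symm⟩
      rintro rfl
      exact h2 (by rw [hrel hS])
    · rintro ⟨j, hj, rfl⟩
      refine ⟨⟨_, rfl⟩, ?_, ?_⟩
      · rw [hleaf, leaf_eq, sat_subset_iff (hW k)]
        exact fun S hS => ⟨j, hj.le, hS⟩
      · rw [hleaf, hleaf, sat_subset_iff (hW j)]
        intro h
        obtain ⟨i, hi, h'⟩ := h ⟨k, le_rfl, Rel.refl _⟩
        have := hne _ _ h'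
        omega
  induction k using Nat.strong_induction_on with
  | _ k ih =>
    cases k with
    | zero =>
      rw [AtLevel]
      right
      intro L hL h1
      by_contra h2
      obtain ⟨j, hj, _⟩ := (hnd 0 L).1 ⟨hL, h1, h2⟩
      omega
    | succ k =>
      rw [AtLevel]
      refine ⟨?_, ?_, leaf (T k), (hnd _ _).2 ⟨k, Nat.lt_succ_self k, rfl⟩, ih k (Nat.lt_succ_self k)⟩
      · have h1 : closure (⋃₀ nonDense (closure (leaf (T (k + 1))))) ⊆ closure (leaf (T k)) := by
          refine closure_minimal ?_ isClosed_closure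
          rintro x ⟨L, hL, hx⟩
          obtain ⟨j, hj, rfl⟩ := (hnd _ _).1 hL
          have : leaf (T j) ⊆ closure (leaf (T k)) := by
            rw [hleaf, leaf_eq, sat_subset_iff (hW k)]
            exact fun S hS => ⟨j, by omega, hS⟩
          exact this hx
        refine lt_of_le_of_lt h1 ?_
        obtain ⟨_, h2, h3⟩ := (hnd (k + 1) _).2 ⟨k, Nat.lt_succ_self k, rfl⟩
        exact ⟨closure_minimal h2 isClosed_closure, h3⟩
      · intro L hL
        obtain ⟨j, hj, rfl⟩ := (hnd _ _).1 hL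
        exact ⟨⟨j, hj⟩, ih j hj⟩

end Pool.Agent.MP_598c06_an

end
end

section

noncomputable section

namespace Pool.Agent.MP_598c06_an

open Filter Topology FreeGroup

variable {n : ℕ}

/-- first generator -/
abbrev ga (n : ℕ) : FreeGroup (Fin (n + 2)) := FreeGroup.of 0
/-- second generator -/
abbrev gb (n : ℕ) : FreeGroup (Fin (n + 2)) := FreeGroup.of 1

/-- a test action on the integers -/
def phi (n : ℕ) : FreeGroup (Fin (n + 2)) →* Equiv.Perm ℤ :=
  FreeGroup.lift fun i => if i = 0 then Equiv.addRight 1 else Equiv.swap 0 1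

lemma phi_mul (g h : FreeGroup (Fin (n + 2))) (x : ℤ) : phi n (g * h) x = phi n g (phi n h x) := by
  rw [(phi n).map_mul, Equiv.Perm.mul_apply]

lemma phi_a1 (x : ℤ) : phi n (ga n) x = x + 1 := by simp [phi]

lemma phi_a (i : ℤ) : ∀ x : ℤ, phi n (ga n ^ i) x = x + i := by
  induction i using Int.induction_on with
  | zero => intro x; simp
  | succ i ih => intro x; rw [zpow_add_one, phi_mul, ih, phi_a1]; ring
  | pred i ih =>
    intro x
    have h1 := ih (x - 1)
    have h2 : ga n ^ (-(i : ℤ)) = ga n ^ (-(i : ℤ) - 1) * ga n := by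
      rw [← zpow_add_one]; simp
    rw [h2, phi_mul, phi_a1, sub_add_cancel] at h1
    rw [h1]; ring

lemma phi_b : phi n (gb n) = Equiv.swap 0 1 := by simp [phi]

lemma a_inj {i j : ℤ} (h : ga n ^ i = ga n ^ j) : i = j := by
  have := congrArg (fun g => phi n g 0) h
  simp only [phi_a] at this
  omega

lemma a_ne_ab (i j : ℤ) : ga n ^ i ≠ ga n ^ j * gb n := by
  intro h
  have h1 := congrArg (fun g => phi n g 10) h
  have h2 := congrArg (fun g => phi n g 0) h
  simp only [phi_mul, phi_a, phi_b] at h1 h2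
  rw [Equiv.swap_apply_of_ne_of_ne (by norm_num) (by norm_num)] at h1
  rw [Equiv.swap_apply_left] at h2
  omega

lemma ba_ne_a (i : ℤ) : gb n * ga n ≠ ga n ^ i := by
  intro h
  have h1 := congrArg (fun g => phi n g 10) h
  have h2 := congrArg (fun g => phi n g 0) h
  simp only [phi_mul, phi_a, phi_a1, phi_b] at h1 h2
  rw [Equiv.swap_apply_of_ne_of_ne (by norm_num) (by norm_num)] at h1
  rw [zero_add, Equiv.swap_apply_right] at h2
  omega

lemma ba_ne_ab (i : ℤ) : gb n * ga n ≠ ga n ^ i * gb n := by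
  intro h
  have h1 := congrArg (fun g => phi n g 10) h
  have h2 := congrArg (fun g => phi n g 0) h
  simp only [phi_mul, phi_a, phi_a1, phi_b] at h1 h2
  rw [Equiv.swap_apply_of_ne_of_ne (by norm_num) (by norm_num),
    Equiv.swap_apply_of_ne_of_ne (by norm_num) (by norm_num)] at h1
  rw [zero_add, Equiv.swap_apply_right, Equiv.swap_apply_left] at h2
  omega

/-- the axis with spikes at the positions in `D` -/
def car (n : ℕ) (D : Set ℤ) : Set (FreeGroup (Fin (n + 2))) :=
  {g | (∃ i : ℤ, g = ga n ^ i) ∨ ∃ i ∈ D, g = ga n ^ i * gb n}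

lemma adj_mul_of {m : ℕ} (g : FreeGroup (Fin m)) (i : Fin m) : (cay m).Adj g (g * of i) := by
  rw [SimpleGraph.mulCayley_adj']
  exact ⟨by simp, of i, ⟨i, rfl⟩, Or.inl rfl⟩

lemma car_connected (D : Set ℤ) : ((cay (n + 2)).induce (car n D)).Connected := by
  have h1 : (1 : FreeGroup (Fin (n + 2))) ∈ car n D := Or.inl ⟨0, by simp⟩
  have hstep : ∀ i : ℤ, ((cay (n + 2)).induce (car n D)).Adj ⟨ga n ^ i, Or.inl ⟨i, rfl⟩⟩
      ⟨ga n ^ (i + 1), Or.inl ⟨i + 1, rfl⟩⟩ := by
    intro i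
    change (cay (n + 2)).Adj (ga n ^ i) (ga n ^ (i + 1))
    rw [zpow_add_one]
    exact adj_mul_of _ _
  have h2 : ∀ i : ℤ, ((cay (n + 2)).induce (car n D)).Reachable ⟨ga n ^ (0 : ℤ), Or.inl ⟨0, rfl⟩⟩
      ⟨ga n ^ i, Or.inl ⟨i, rfl⟩⟩ := by
    intro i
    induction i using Int.induction_on with
    | zero => rfl
    | succ i ih => exact ih.trans (hstep i).reachable
    | pred i ih =>
      refine ih.trans ?_
      have := (hstep (-(i : ℤ) - 1)).reachable.symm
      simpa using this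
  rw [SimpleGraph.connected_iff_exists_forall_reachable]
  refine ⟨⟨ga n ^ (0 : ℤ), Or.inl ⟨0, rfl⟩⟩, ?_⟩
  rintro ⟨g, ⟨i, rfl⟩ | ⟨i, hi, rfl⟩⟩
  · exact h2 i
  · refine (h2 i).trans (SimpleGraph.Adj.reachable ?_)
    exact adj_mul_of _ _

/-- the tree of a set of integers -/
def TD (n : ℕ) (D : Set ℤ) : X (n + 2) :=
  ⟨car n D, Set.infinite_of_injective_forall_mem (f := fun i : ℤ => ga n ^ i)
      (fun _ _ h => a_inj h) (fun i => Or.inl ⟨i, rfl⟩), Or.inl ⟨0, by simp⟩,
    car_connected D, (cay_acyclic _).induce _⟩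

lemma mem_TD_ab {D : Set ℤ} {i : ℤ} : ga n ^ i * gb n ∈ (TD n D).1 ↔ i ∈ D := by
  constructor
  · rintro (⟨j, h⟩ | ⟨j, hj, h⟩)
    · exact absurd h.symm (a_ne_ab _ _)
    · rw [a_inj (mul_right_cancel h)]; exact hj
  · exact fun h => Or.inr ⟨i, h, rfl⟩

lemma tendsto_TD {ι : Type*} {l : Filter ι} {D : ι → Set ℤ} {E : Set ℤ}
    (h : ∀ d, ∀ᶠ i in l, (d ∈ D i ↔ d ∈ E)) (g : FreeGroup (Fin (n + 2))) :
    ∀ᶠ i in l, (g ∈ (TD n (D i)).1 ↔ g ∈ (TD n E).1) := by
  by_cases hg : ∃ d : ℤ, g = ga n ^ d * gb n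
  · obtain ⟨d, rfl⟩ := hg
    filter_upwards [h d] with i hi
    rw [mem_TD_ab, mem_TD_ab, hi]
  · refine Eventually.of_forall fun i => ?_
    constructor
    · rintro (h1 | ⟨d, _, h1⟩)
      · exact Or.inl h1
      · exact absurd ⟨d, h1⟩ hg
    · rintro (h1 | ⟨d, _, h1⟩)
      · exact Or.inl h1
      · exact absurd ⟨d, h1⟩ hg

lemma mem_TD_shift (D : Set ℤ) (t : ℤ) (x : FreeGroup (Fin (n + 2))) :
    x ∈ (TD n {d | t + d ∈ D}).1 ↔ ga n ^ t * x ∈ (TD n D).1 := by
  constructor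
  · rintro (⟨i, rfl⟩ | ⟨i, hi, rfl⟩)
    · exact Or.inl ⟨t + i, by rw [zpow_add]⟩
    · exact Or.inr ⟨t + i, hi, by rw [zpow_add, mul_assoc]⟩
  · rintro (⟨i, h⟩ | ⟨i, hi, h⟩)
    · exact Or.inl ⟨-t + i, by rw [zpow_add, ← h, zpow_neg, inv_mul_cancel_left]⟩
    · exact Or.inr ⟨-t + i, by simpa using hi,
        by rw [zpow_add, mul_assoc, ← h, zpow_neg, inv_mul_cancel_left]⟩

lemma rel_TD_iff {D : Set ℤ} {S : X (n + 2)} :
    Rel (TD n D) S ↔ ∃ t : ℤ, Reroot 1 (TD n {d | t + d ∈ D}) S ∨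
      Reroot (gb n) (TD n {d | t + d ∈ D}) S := by
  constructor
  · rintro ⟨g, hg⟩
    rcases hg.1 with ⟨i, rfl⟩ | ⟨i, _, rfl⟩
    · exact ⟨i, Or.inl (reroot_of_iff fun x => by rw [hg.mem_iff, mem_TD_shift, one_mul])⟩
    · exact ⟨i, Or.inr (reroot_of_iff fun x => by rw [hg.mem_iff, mem_TD_shift, mul_assoc])⟩
  · rintro ⟨t, h | h⟩
    · exact Rel.trans ⟨_, reroot_of_iff (mem_TD_shift D t)⟩ ⟨_, h⟩
    · exact Rel.trans ⟨_, reroot_of_iff (mem_TD_shift D t)⟩ ⟨_, h⟩

lemma closure_orb_subset (k : ℕ) :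
    closure (orb (TD n (DD k))) ⊆ {S | ∃ j ≤ k, Rel (TD n (DD j)) S} := by
  intro S hS
  rw [mem_closure_iff_ultrafilter] at hS
  obtain ⟨U, hU, hle⟩ := hS
  have h1 := tendsto_X_iff.1 (show Tendsto id (U : Filter (X (n + 2))) (𝓝 S) from hle)
  have h2 : ∀ R : X (n + 2), ∃ t : ℤ, R ∈ orb (TD n (DD k)) →
      (Reroot 1 (TD n {d | t + d ∈ DD k}) R ∨ Reroot (gb n) (TD n {d | t + d ∈ DD k}) R) := by
    intro R
    by_cases h : R ∈ orb (TD n (DD k))
    · obtain ⟨t, ht⟩ := rel_TD_iff.1 h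
      exact ⟨t, fun _ => ht⟩
    · exact ⟨0, fun h' => absurd h' h⟩
  choose t ht using h2
  obtain ⟨j, hj, τ, hτ⟩ := ultra_limit U t k
  have h3 : ∀ c, (∀ᶠ R in (U : Filter (X (n + 2))), Reroot c (TD n {d | t R + d ∈ DD k}) R) →
      Reroot c (TD n {d | τ + d ∈ DD j}) S := by
    intro c hc
    refine reroot_of_iff fun x => ?_
    obtain ⟨R, h4, h5, h6⟩ := (hc.and ((h1 x).and (tendsto_TD (n := n)
      (D := fun R => {d | t R + d ∈ DD k}) (E := {d | τ + d ∈ DD j}) hτ (c * x)))).exists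
    rw [← h6, ← h4.mem_iff]
    exact h5.symm
  have h4 : ∀ᶠ R in (U : Filter (X (n + 2))), (Reroot 1 (TD n {d | t R + d ∈ DD k}) R ∨
      Reroot (gb n) (TD n {d | t R + d ∈ DD k}) R) := by
    filter_upwards [hU] with R hR using ht R hR
  refine ⟨j, hj, rel_TD_iff.2 ⟨τ, ?_⟩⟩
  rcases Ultrafilter.eventually_or.1 h4 with h | h
  · exact Or.inl (h3 _ h)
  · exact Or.inr (h3 _ h)

lemma closure_orb_mono (k : ℕ) :
    closure (orb (TD n (DD k))) ⊆ closure (orb (TD n (DD (k + 1)))) := by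
  refine closure_minimal ?_ isClosed_closure
  have h : TD n (DD k) ∈ closure (orb (TD n (DD (k + 1)))) := by
    refine mem_closure_of_tendsto (f := fun M : ℕ => TD n {d | ((2 ^ M : ℕ) : ℤ) + d ∈ DD (k + 1)})
      (b := atTop) (tendsto_X_iff.2 (tendsto_TD (approx k))) (Eventually.of_forall fun M => ?_)
    exact ⟨_, reroot_of_iff (mem_TD_shift _ _)⟩
  exact fun S hS => (orb_inv _).closure _ _ h hS

lemma closure_orb (k : ℕ) :
    closure (orb (TD n (DD k))) = {S | ∃ j ≤ k, Rel (TD n (DD j)) S} := by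
  refine Set.Subset.antisymm (closure_orb_subset k) ?_
  rintro S ⟨j, hj, hS⟩
  have : closure (orb (TD n (DD j))) ⊆ closure (orb (TD n (DD k))) :=
    monotone_nat_of_le_succ (f := fun k => closure (orb (TD n (DD k)))) closure_orb_mono hj
  exact this (subset_closure hS)

lemma rel_le (j k : ℕ) (h : Rel (TD n (DD j)) (TD n (DD k))) : k ≤ j := by
  obtain ⟨t, h | h⟩ := rel_TD_iff.1 h
  · refine DD_translate_le (a := 0) (b := t) fun d => ?_
    have := h.mem_iff (ga n ^ d * gb n)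
    rw [one_mul, mem_TD_ab, mem_TD_ab] at this
    simpa using this
  · exfalso
    rcases (h.mem_iff (ga n)).1 (Or.inl ⟨1, by simp⟩) with ⟨i, hi⟩ | ⟨i, _, hi⟩
    · exact ba_ne_a _ hi
    · exact ba_ne_ab _ hi

lemma TD_eq_tree (n k : ℕ) : (TD n (DD k)).1 = tree n k := by
  ext g
  constructor
  · rintro (h | ⟨i, hi, rfl⟩)
    · exact Or.inl h
    · refine Or.inr ⟨i.toNat, hi.2, ?_⟩
      rw [← zpow_natCast, Int.toNat_of_nonneg hi.1]
  · rintro (h | ⟨m, hm, rfl⟩)
    · exact Or.inl h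
    · exact Or.inr ⟨m, ⟨Int.natCast_nonneg m, by simpa [ds] using hm⟩, by rw [zpow_natCast]⟩

theorem main (n k : ℕ) :
    ∃ T : X (n + 2), T.1 = tree n k ∧ ∀ j : ℕ, AtLevel j (closure (leaf T)) ↔ j = k := by
  have h := atLevel_of_chain (fun k => TD n (DD k)) closure_orb rel_le k
  exact ⟨TD n (DD k), TD_eq_tree n k, fun j =>
    ⟨fun hj => atLevel_unique _ _ _ hj h, fun hj => hj ▸ h⟩⟩

end Pool.Agent.MP_598c06_an

end
end
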